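import Pool.Agent.H87.SN.Targets

/-!
# Row GRN: Green's formula
-/

set_option autoImplicit false

namespace Pool.Agent.H94.SN

open Pool.Agent.H87.SN
open MeasureTheory Metric Set Filter Topology
open scoped ContDiff RealInnerProductSpace

theorem int_mul {n : ℕ} {U : Set (E n)} {a g : E n → ℝ} (hU : IsOpen U) (ha : Continuous a)
    (hc : HasCompactSupport a) (hs : tsupport a ⊆ U) (hg : ContinuousOn g U) :
    Integrable (fun x => a x * g x) := by
  have h1 : HasCompactSupport (fun x => a x * g x) := hc.mul_right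
  refine Continuous.integrable_of_hasCompactSupport ?_ h1
  refine continuous_of_tsupport fun x hx => ?_
  have h2 : x ∈ tsupport a := tsupport_mul_subset_left hx
  exact ha.continuousAt.mul (hg.continuousAt (hU.mem_nhds (hs h2)))

theorem pf_GRN (hIBP : T_IBP) : T_GRN := by
  intro n U a f hU ha hc hs hf
  have hb1 : ContDiffOn ℝ 1 (fderiv ℝ f) U := hf.fderiv_of_isOpen hU (by norm_num)
  have hb : ∀ i : Fin n, ContDiffOn ℝ 1 (fun x => fderiv ℝ f x (bv i)) U := fun i =>
    hb1.clm_apply contDiffOn_const
  have hpt : ∀ (i : Fin n) (x : E n), a x * fderiv ℝ (fun y => fderiv ℝ f y (bv i)) x (bv i) =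
      a x * fderiv ℝ (fderiv ℝ f) x (bv i) (bv i) := by
    intro i x
    by_cases h0 : a x = 0
    · rw [h0, zero_mul, zero_mul]
    · have hx : x ∈ U := hs (subset_tsupport a h0)
      have hd : DifferentiableAt ℝ (fderiv ℝ f) x :=
        (hb1.contDiffAt (hU.mem_nhds hx)).differentiableAt (by norm_num)
      have h1 := (hd.hasFDerivAt.clm_apply (hasFDerivAt_const (bv i : E n) x)).fderiv
      rw [h1]
      simp
  have hi1 : ∀ i : Fin n, Integrable
      (fun x => a x * fderiv ℝ (fun y => fderiv ℝ f y (bv i)) x (bv i)) := by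
    intro i
    refine int_mul hU ha.continuous hc hs ?_
    exact ((hb i).continuousOn_fderiv_of_isOpen hU le_rfl).clm_apply continuousOn_const
  have hi2 : ∀ i : Fin n, Integrable
      (fun x => fderiv ℝ a x (bv i) * fderiv ℝ f x (bv i)) := by
    intro i
    refine int_mul hU ?_ (hc.fderiv_apply ℝ (bv i)) ?_ (hb i).continuousOn
    · exact (ha.continuous_fderiv (by norm_num)).clm_apply continuous_const
    · exact (tsupport_fderiv_apply_subset ℝ (bv i)).trans hs
  have h1 : (fun x => a x * lap f x) = fun x => ∑ i : Fin n,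
      a x * fderiv ℝ (fun y => fderiv ℝ f y (bv i)) x (bv i) := by
    funext x
    unfold lap
    rw [Finset.mul_sum]
    exact Finset.sum_congr rfl fun i _ => (hpt i x).symm
  rw [h1, integral_finsetSum _ fun i _ => hi1 i, integral_finsetSum _ fun i _ => hi2 i,
    ← Finset.sum_neg_distrib]
  exact Finset.sum_congr rfl fun i _ =>
    hIBP.2 n U a (fun x => fderiv ℝ f x (bv i)) (bv i) hU ha hc hs (hb i)

end Pool.Agent.H94.SN
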