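import Pool.Agent.H87.SN.Targets

/-!
# Row JIN: the integral of `J` over the neck
-/

set_option autoImplicit false

namespace Pool.Agent.H94.SN

open Pool.Agent.H87.SN
open MeasureTheory Metric Set Filter Topology
open scoped ContDiff RealInnerProductSpace

theorem kerJ_nonneg {s : ℝ} (hs : 0 < s) (τ : ℝ) : 0 ≤ kerJ s τ := by
  unfold kerJ
  positivity

theorem kerJ_meas : Measurable (fun p : ℝ × ℝ => kerJ p.1 p.2) := by
  unfold kerJ
  fun_prop

/-- the first step: from the interval integral to a lower integral -/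
theorem Jf_le {r : ℝ → ℝ} {s : ℝ} (hs : 0 < s) (τ : ℝ) :
    ENNReal.ofReal (Jf r s τ / s) ≤
      ∫⁻ t in Ioc (-3 : ℝ) 3, ENNReal.ofReal (Real.sqrt (r t) * (kerJ s (τ - t) / s)) := by
  have h1 : Jf r s τ / s = ∫ t in Ioc (-3 : ℝ) 3, Real.sqrt (r t) * (kerJ s (τ - t) / s) := by
    unfold Jf
    rw [intervalIntegral.integral_of_le (by norm_num), ← integral_div]
    refine integral_congr_ae (Eventually.of_forall fun t => ?_)
    change Real.sqrt (r t) * kerJ s (τ - t) / s = _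
    rw [mul_div_assoc]
  rw [h1]
  refine (Real.ofReal_le_enorm _).trans ?_
  refine (enorm_integral_le_lintegral_enorm _).trans (le_of_eq ?_)
  refine lintegral_congr fun t => ?_
  exact Real.enorm_of_nonneg (mul_nonneg (Real.sqrt_nonneg _)
    (div_nonneg (kerJ_nonneg hs _) hs.le))

/-- the integrand in the three variables -/
noncomputable def GG (r : ℝ → ℝ) (τ s t : ℝ) : ENNReal :=
  if r τ < s then ENNReal.ofReal (Real.sqrt (r t) * (kerJ s (τ - t) / s)) else 0

theorem GG_meas {r : ℝ → ℝ} (hr : Continuous r) :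
    Measurable (fun p : ℝ × ℝ × ℝ => GG r p.1 p.2.1 p.2.2) := by
  unfold GG
  refine Measurable.ite ?_ ?_ measurable_const
  · exact measurableSet_lt (hr.measurable.comp measurable_fst)
      (measurable_fst.comp measurable_snd)
  · have h1 : Measurable (fun p : ℝ × ℝ × ℝ => kerJ p.2.1 (p.1 - p.2.2)) :=
      kerJ_meas.comp ((measurable_fst.comp measurable_snd).prodMk
        (measurable_fst.sub (measurable_snd.comp measurable_snd)))
    have h2 : Measurable (fun p : ℝ × ℝ × ℝ => Real.sqrt (r p.2.2)) :=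
      (Real.continuous_sqrt.comp hr).measurable.comp (measurable_snd.comp measurable_snd)
    exact (h2.mul (h1.div (measurable_fst.comp measurable_snd))).ennreal_ofReal

theorem pf_JIN (hKIN : T_KIN) : T_JIN := by
  intro M
  obtain ⟨C, hC0, hC⟩ := hKIN (max |M| 1) (le_max_right _ _)
  refine ⟨6 * C, by positivity, fun r hr hr01 hr' => ?_⟩
  set M' := max |M| 1 with hM'
  have hM1 : 1 ≤ M' := le_max_right _ _
  have hM0 : 0 < M' := lt_of_lt_of_le one_pos hM1
  have hrc : Continuous r := hr.continuous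
  have hlip : ∀ x y : ℝ, |r x - r y| ≤ M' * |x - y| := by
    intro x y
    have h1 := Convex.norm_image_sub_le_of_norm_deriv_le (f := r) (s := univ) (C := M')
      (fun z _ => (hr.differentiable (by norm_num)).differentiableAt)
      (fun z _ => by
        rw [Real.norm_eq_abs]
        exact (hr' z).trans ((le_abs_self M).trans (le_max_left _ _)))
      convex_univ (mem_univ y) (mem_univ x)
    simpa only [Real.norm_eq_abs] using h1
  -- step 1
  have e1 : ∫⁻ τ : ℝ, ∫⁻ s in Ioi (r τ), ENNReal.ofReal (Jf r s τ / s) ≤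
      ∫⁻ τ : ℝ, ∫⁻ s in Ioi (0 : ℝ), ∫⁻ t in Ioc (-3 : ℝ) 3, GG r τ s t := by
    refine lintegral_mono fun τ => ?_
    have h1 : ∫⁻ s in Ioi (r τ), ENNReal.ofReal (Jf r s τ / s) ≤
        ∫⁻ s in Ioi (r τ), ∫⁻ t in Ioc (-3 : ℝ) 3, GG r τ s t := by
      refine setLIntegral_mono' measurableSet_Ioi fun s hs => ?_
      have hs' : r τ < s := hs
      have hs0 : 0 < s := lt_trans (hr01 τ).1 hs'
      refine (Jf_le hs0 τ).trans (le_of_eq ?_)
      refine lintegral_congr fun t => ?_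
      unfold GG
      rw [if_pos hs']
    refine h1.trans (lintegral_mono_set ?_)
    exact Ioi_subset_Ioi (hr01 τ).1.le
  refine e1.trans ?_
  -- step 2
  have hm := GG_meas hrc
  have e2 : ∫⁻ τ : ℝ, ∫⁻ s in Ioi (0 : ℝ), ∫⁻ t in Ioc (-3 : ℝ) 3, GG r τ s t =
      ∫⁻ τ : ℝ, ∫⁻ t in Ioc (-3 : ℝ) 3, ∫⁻ s in Ioi (0 : ℝ), GG r τ s t := by
    refine lintegral_congr fun τ => ?_
    refine lintegral_lintegral_swap ?_
    have h1 : Measurable (fun p : ℝ × ℝ => GG r τ p.1 p.2) :=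
      hm.comp (measurable_const.prodMk (measurable_fst.prodMk measurable_snd))
    exact h1.aemeasurable
  have hm2 : Measurable (fun p : ℝ × ℝ => ∫⁻ s in Ioi (0 : ℝ), GG r p.1 s p.2) := by
    have h1 : Measurable (fun q : (ℝ × ℝ) × ℝ => GG r q.1.1 q.2 q.1.2) :=
      hm.comp ((measurable_fst.comp measurable_fst).prodMk
        (measurable_snd.prodMk (measurable_snd.comp measurable_fst)))
    exact h1.lintegral_prod_right'
  have e3 : ∫⁻ τ : ℝ, ∫⁻ t in Ioc (-3 : ℝ) 3, ∫⁻ s in Ioi (0 : ℝ), GG r τ s t =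
      ∫⁻ t in Ioc (-3 : ℝ) 3, ∫⁻ τ : ℝ, ∫⁻ s in Ioi (0 : ℝ), GG r τ s t :=
    lintegral_lintegral_swap hm2.aemeasurable
  rw [e2, e3]
  -- step 3
  have e4 : ∀ t : ℝ, ∫⁻ τ : ℝ, ∫⁻ s in Ioi (0 : ℝ), GG r τ s t ≤ ENNReal.ofReal C := by
    intro t
    have ht := hr01 t
    have hsq : 0 < Real.sqrt (r t) := Real.sqrt_pos.2 ht.1
    have h1 : ∫⁻ τ : ℝ, ∫⁻ s in Ioi (0 : ℝ), GG r τ s t ≤
        ∫⁻ τ : ℝ, ∫⁻ s in Ioi (0 : ℝ), ENNReal.ofReal (Real.sqrt (r t)) *
          (if r t / 2 ≤ s ∨ r t / (2 * M') ≤ |τ - t| then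
            ENNReal.ofReal (kerJ s (τ - t) / s) else 0) := by
      refine lintegral_mono fun τ => lintegral_mono fun s => ?_
      change GG r τ s t ≤ _
      unfold GG
      by_cases h : r τ < s
      · rw [if_pos h]
        have h2 : r t / 2 ≤ s ∨ r t / (2 * M') ≤ |τ - t| := by
          by_contra hc
          push Not at hc
          have h3 := hlip τ t
          have h4 : M' * |τ - t| < M' * (r t / (2 * M')) := mul_lt_mul_of_pos_left hc.2 hM0
          have h5 : M' * (r t / (2 * M')) = r t / 2 := by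
            field_simp
          have h6 := (abs_le.1 h3).1
          linarith [hc.1]
        rw [if_pos h2, ENNReal.ofReal_mul (Real.sqrt_nonneg _)]
      · rw [if_neg h]
        exact bot_le
    refine h1.trans ?_
    have h2 : ∫⁻ τ : ℝ, ∫⁻ s in Ioi (0 : ℝ), ENNReal.ofReal (Real.sqrt (r t)) *
          (if r t / 2 ≤ s ∨ r t / (2 * M') ≤ |τ - t| then
            ENNReal.ofReal (kerJ s (τ - t) / s) else 0) =
        ENNReal.ofReal (Real.sqrt (r t)) * ∫⁻ τ : ℝ, ∫⁻ s in Ioi (0 : ℝ),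
          (if r t / 2 ≤ s ∨ r t / (2 * M') ≤ |τ - t| then
            ENNReal.ofReal (kerJ s (τ - t) / s) else 0) := by
      have h3 : ∀ τ : ℝ, ∫⁻ s in Ioi (0 : ℝ), ENNReal.ofReal (Real.sqrt (r t)) *
          (if r t / 2 ≤ s ∨ r t / (2 * M') ≤ |τ - t| then
            ENNReal.ofReal (kerJ s (τ - t) / s) else 0) =
          ENNReal.ofReal (Real.sqrt (r t)) * ∫⁻ s in Ioi (0 : ℝ),
          (if r t / 2 ≤ s ∨ r t / (2 * M') ≤ |τ - t| then
            ENNReal.ofReal (kerJ s (τ - t) / s) else 0) := by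
        intro τ
        exact lintegral_const_mul' _ _ ENNReal.ofReal_ne_top
      rw [lintegral_congr h3]
      exact lintegral_const_mul' _ _ ENNReal.ofReal_ne_top
    rw [h2]
    have h3 : ∫⁻ τ : ℝ, ∫⁻ s in Ioi (0 : ℝ),
          (if r t / 2 ≤ s ∨ r t / (2 * M') ≤ |τ - t| then
            ENNReal.ofReal (kerJ s (τ - t) / s) else 0) =
        ∫⁻ τ : ℝ, ∫⁻ s in Ioi (0 : ℝ),
          (if r t / 2 ≤ s ∨ r t / (2 * M') ≤ |τ| then
            ENNReal.ofReal (kerJ s τ / s) else 0) :=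
      lintegral_sub_right_eq_self (fun τ : ℝ => ∫⁻ s in Ioi (0 : ℝ),
          (if r t / 2 ≤ s ∨ r t / (2 * M') ≤ |τ| then
            ENNReal.ofReal (kerJ s τ / s) else 0)) t
    rw [h3]
    refine (mul_le_mul_right (hC (r t) ht.1 ht.2) _).trans ?_
    rw [← ENNReal.ofReal_mul hsq.le]
    refine ENNReal.ofReal_le_ofReal (le_of_eq ?_)
    field_simp
  calc ∫⁻ t in Ioc (-3 : ℝ) 3, ∫⁻ τ : ℝ, ∫⁻ s in Ioi (0 : ℝ), GG r τ s t
      ≤ ∫⁻ _t in Ioc (-3 : ℝ) 3, ENNReal.ofReal C := lintegral_mono fun t => e4 t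
    _ = ENNReal.ofReal C * volume (Ioc (-3 : ℝ) 3) := setLIntegral_const _ _
    _ = ENNReal.ofReal (6 * C) := by
        rw [Real.volume_Ioc, ← ENNReal.ofReal_mul hC0]
        congr 1
        ring

end Pool.Agent.H94.SN
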