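import Pool.Agent.H87.SN.Targets

/-!
# Row HC1: the function `H(s, τ) = ∫_{x > 1} W(s x, τ) / x dx`
-/

set_option autoImplicit false

namespace Pool.Agent.H94.SN

open Pool.Agent.H87.SN
open MeasureTheory Metric Set Filter Topology
open scoped ContDiff RealInnerProductSpace

/-- the hypotheses on `W` -/
structure Hy (W : ℝ × ℝ → ℝ) : Prop where
  c1 : ContDiffOn ℝ 1 W {p | 0 < p.1}
  pos : ∀ s τ : ℝ, 0 < s → 0 < W (s, τ)
  le : ∀ s τ : ℝ, 0 < s → W (s, τ) ≤ s⁻¹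
  ds : ∀ s τ : ℝ, 0 < s → |s * deriv (fun x => W (x, τ)) s| ≤ 3 / 2 * W (s, τ)
  dt : ∀ s τ : ℝ, 0 < s → |s * deriv (fun y => W (s, y)) τ| ≤ 3 / 20 * W (s, τ)

theorem isOpen_U : IsOpen {p : ℝ × ℝ | 0 < p.1} := isOpen_lt continuous_const continuous_fst

variable {W : ℝ × ℝ → ℝ}

theorem Hy.hasF (h : Hy W) {p : ℝ × ℝ} (hp : 0 < p.1) : HasFDerivAt W (fderiv ℝ W p) p :=
  ((h.c1.contDiffAt (isOpen_U.mem_nhds hp)).differentiableAt (by norm_num)).hasFDerivAt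

theorem Hy.contF (h : Hy W) : ContinuousOn (fderiv ℝ W) {p | 0 < p.1} :=
  h.c1.continuousOn_fderiv_of_isOpen isOpen_U le_rfl

theorem hasD_fst (s τ : ℝ) : HasDerivAt (fun x : ℝ => ((x, τ) : ℝ × ℝ)) (1, 0) s :=
  (hasDerivAt_id s).prodMk (hasDerivAt_const s τ)

theorem hasD_snd (s τ : ℝ) : HasDerivAt (fun y : ℝ => ((s, y) : ℝ × ℝ)) (0, 1) τ :=
  (hasDerivAt_const τ s).prodMk (hasDerivAt_id τ)

theorem Hy.ds' (h : Hy W) {s : ℝ} (τ : ℝ) (hs : 0 < s) :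
    |s * fderiv ℝ W (s, τ) (1, 0)| ≤ 3 / 2 * W (s, τ) := by
  have h1 : HasDerivAt (fun x => W (x, τ)) (fderiv ℝ W (s, τ) (1, 0)) s :=
    HasFDerivAt.comp_hasDerivAt s (h.hasF (p := (s, τ)) hs) (hasD_fst s τ)
  have h2 := h.ds s τ hs
  rwa [h1.deriv] at h2

theorem Hy.dt' (h : Hy W) {s : ℝ} (τ : ℝ) (hs : 0 < s) :
    |s * fderiv ℝ W (s, τ) (0, 1)| ≤ 3 / 20 * W (s, τ) := by
  have h1 : HasDerivAt (fun y => W (s, y)) (fderiv ℝ W (s, τ) (0, 1)) τ :=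
    HasFDerivAt.comp_hasDerivAt τ (h.hasF (p := (s, τ)) hs) (hasD_snd s τ)
  have h2 := h.dt s τ hs
  rwa [h1.deriv] at h2

/-! ### power functions on the half line -/

theorem int_pow {k : ℕ} (hk : 2 ≤ k) : IntegrableOn (fun x : ℝ => (x ^ k)⁻¹) (Ioi 1) := by
  have h1 : IntegrableOn (fun x : ℝ => x ^ (-(k : ℝ))) (Ioi 1) := by
    refine integrableOn_Ioi_rpow_of_lt ?_ one_pos
    have : (2 : ℝ) ≤ k := by exact_mod_cast hk
    linarith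
  refine h1.congr_fun (fun x hx => ?_) measurableSet_Ioi
  have hx0 : (0 : ℝ) < x := lt_trans one_pos hx
  change x ^ (-(k : ℝ)) = (x ^ k)⁻¹
  rw [Real.rpow_neg hx0.le, Real.rpow_natCast]

theorem int_sq : ∫ x in Ioi (1 : ℝ), (x ^ 2)⁻¹ = 1 := by
  have h1 : ∫ x in Ioi (1 : ℝ), (x ^ 2)⁻¹ = ∫ x in Ioi (1 : ℝ), x ^ (-2 : ℝ) := by
    refine setIntegral_congr_fun measurableSet_Ioi fun x hx => ?_
    have hx0 : (0 : ℝ) < x := lt_trans one_pos hx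
    change (x ^ 2)⁻¹ = x ^ (-2 : ℝ)
    rw [Real.rpow_neg hx0.le]
    norm_num
  rw [h1, integral_Ioi_rpow_of_lt (by norm_num) one_pos]
  norm_num

/-! ### the integrand and its derivative -/

/-- `(a, b) ↦ (x a, b)` -/
noncomputable def Mx (x : ℝ) : ℝ × ℝ →L[ℝ] ℝ × ℝ :=
  (x • ContinuousLinearMap.fst ℝ ℝ ℝ).prod (ContinuousLinearMap.snd ℝ ℝ ℝ)

theorem Mx_apply (x a b : ℝ) : Mx x (a, b) = (x * a, b) := rfl

theorem Mx_cont : Continuous Mx := by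
  unfold Mx
  exact (ContinuousLinearMap.prodₗᵢ ℝ (𝕜 := ℝ) (E := ℝ × ℝ) (F := ℝ) (G := ℝ)).continuous.comp
    ((continuous_id.smul continuous_const).prodMk continuous_const)

/-- the integrand -/
noncomputable def Fx (W : ℝ × ℝ → ℝ) (p : ℝ × ℝ) (x : ℝ) : ℝ := x⁻¹ * W (p.1 * x, p.2)

/-- its derivative -/
noncomputable def Fd (W : ℝ × ℝ → ℝ) (p : ℝ × ℝ) (x : ℝ) : ℝ × ℝ →L[ℝ] ℝ :=
  x⁻¹ • (fderiv ℝ W (p.1 * x, p.2)).comp (Mx x)

theorem Fd_fst (W : ℝ × ℝ → ℝ) (p : ℝ × ℝ) {x : ℝ} (hx : 0 < x) :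
    Fd W p x (1, 0) = fderiv ℝ W (p.1 * x, p.2) (1, 0) := by
  change x⁻¹ * (fderiv ℝ W (p.1 * x, p.2)) (x * 1, 0) = _
  have h1 : ((x * 1, 0) : ℝ × ℝ) = x • ((1, 0) : ℝ × ℝ) := by simp
  rw [h1, map_smul, smul_eq_mul, ← mul_assoc, inv_mul_cancel₀ hx.ne', one_mul]

theorem Fd_snd (W : ℝ × ℝ → ℝ) (p : ℝ × ℝ) (x : ℝ) :
    Fd W p x (0, 1) = x⁻¹ * fderiv ℝ W (p.1 * x, p.2) (0, 1) := by
  change x⁻¹ * (fderiv ℝ W (p.1 * x, p.2)) (x * 0, 1) = _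
  rw [mul_zero]

theorem norm_le_two (L : ℝ × ℝ →L[ℝ] ℝ) : ‖L‖ ≤ |L (1, 0)| + |L (0, 1)| := by
  refine L.opNorm_le_bound (by positivity) fun v => ?_
  obtain ⟨a, b⟩ := v
  have h1 : ((a, b) : ℝ × ℝ) = a • ((1, 0) : ℝ × ℝ) + b • ((0, 1) : ℝ × ℝ) := by simp
  have h2 : L (a, b) = a * L (1, 0) + b * L (0, 1) := by
    rw [h1, map_add, map_smul, map_smul]
    rfl
  rw [h2, Real.norm_eq_abs]
  have ha : |a| ≤ ‖((a, b) : ℝ × ℝ)‖ := by
    rw [Prod.norm_def]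
    exact le_max_left _ _
  have hb : |b| ≤ ‖((a, b) : ℝ × ℝ)‖ := by
    rw [Prod.norm_def]
    exact le_max_right _ _
  calc |a * L (1, 0) + b * L (0, 1)| ≤ |a| * |L (1, 0)| + |b| * |L (0, 1)| := by
        rw [← abs_mul, ← abs_mul]
        exact abs_add_le _ _
    _ ≤ ‖((a, b) : ℝ × ℝ)‖ * |L (1, 0)| + ‖((a, b) : ℝ × ℝ)‖ * |L (0, 1)| :=
        add_le_add (mul_le_mul_of_nonneg_right ha (abs_nonneg _))
          (mul_le_mul_of_nonneg_right hb (abs_nonneg _))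
    _ = (|L (1, 0)| + |L (0, 1)|) * ‖((a, b) : ℝ × ℝ)‖ := by ring

/-- bound of the integrand -/
theorem Hy.Fx_le (h : Hy W) {p : ℝ × ℝ} (hp : 0 < p.1) {x : ℝ} (hx : 1 ≤ x) :
    |Fx W p x| ≤ p.1⁻¹ * (x ^ 2)⁻¹ := by
  have hx0 : 0 < x := lt_of_lt_of_le one_pos hx
  have h1 : 0 < p.1 * x := mul_pos hp hx0
  have h2 := h.pos (p.1 * x) p.2 h1
  have h3 := h.le (p.1 * x) p.2 h1
  unfold Fx
  rw [abs_of_pos (mul_pos (inv_pos.2 hx0) h2)]
  calc x⁻¹ * W (p.1 * x, p.2) ≤ x⁻¹ * (p.1 * x)⁻¹ :=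
        mul_le_mul_of_nonneg_left h3 (inv_pos.2 hx0).le
    _ = p.1⁻¹ * (x ^ 2)⁻¹ := by
        rw [mul_inv, pow_two, mul_inv]
        ring

/-- bound of the derivative -/
theorem Hy.Fd_le (h : Hy W) {p : ℝ × ℝ} {c : ℝ} (hc : 0 < c) (hp : c ≤ p.1) {x : ℝ}
    (hx : 1 ≤ x) : ‖Fd W p x‖ ≤ 2 * (c ^ 2)⁻¹ * (x ^ 2)⁻¹ := by
  have hx0 : 0 < x := lt_of_lt_of_le one_pos hx
  have hp0 : 0 < p.1 := lt_of_lt_of_le hc hp
  have h1 : 0 < p.1 * x := mul_pos hp0 hx0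
  have h2 := h.pos (p.1 * x) p.2 h1
  have h3 := h.le (p.1 * x) p.2 h1
  refine (norm_le_two _).trans ?_
  rw [Fd_fst W p hx0, Fd_snd W p x]
  have h4 := h.ds' p.2 h1
  have h5 := h.dt' p.2 h1
  rw [abs_mul, abs_of_pos h1] at h4 h5
  have h6 : |fderiv ℝ W (p.1 * x, p.2) (1, 0)| ≤ 3 / 2 * W (p.1 * x, p.2) * (p.1 * x)⁻¹ := by
    rw [← div_eq_mul_inv, le_div_iff₀ h1]
    linarith
  have h7 : |x⁻¹ * fderiv ℝ W (p.1 * x, p.2) (0, 1)| ≤
      3 / 20 * W (p.1 * x, p.2) * (p.1 * x)⁻¹ := by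
    rw [abs_mul, abs_of_pos (inv_pos.2 hx0)]
    have h8 : |fderiv ℝ W (p.1 * x, p.2) (0, 1)| ≤ 3 / 20 * W (p.1 * x, p.2) * (p.1 * x)⁻¹ := by
      rw [← div_eq_mul_inv, le_div_iff₀ h1]
      linarith
    have h9 : x⁻¹ ≤ 1 := inv_le_one_of_one_le₀ hx
    calc x⁻¹ * |fderiv ℝ W (p.1 * x, p.2) (0, 1)| ≤ 1 * |fderiv ℝ W (p.1 * x, p.2) (0, 1)| :=
          mul_le_mul_of_nonneg_right h9 (abs_nonneg _)
      _ ≤ _ := by rw [one_mul]; exact h8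
  have h8 : W (p.1 * x, p.2) * (p.1 * x)⁻¹ ≤ (c ^ 2)⁻¹ * (x ^ 2)⁻¹ := by
    calc W (p.1 * x, p.2) * (p.1 * x)⁻¹ ≤ (p.1 * x)⁻¹ * (p.1 * x)⁻¹ :=
          mul_le_mul_of_nonneg_right h3 (inv_pos.2 h1).le
      _ ≤ (c * x)⁻¹ * (c * x)⁻¹ := by
          have h9 : (p.1 * x)⁻¹ ≤ (c * x)⁻¹ :=
            inv_anti₀ (mul_pos hc hx0) (mul_le_mul_of_nonneg_right hp hx0.le)
          exact mul_le_mul h9 h9 (inv_pos.2 h1).le (inv_pos.2 (mul_pos hc hx0)).le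
      _ = (c ^ 2)⁻¹ * (x ^ 2)⁻¹ := by
          rw [pow_two, pow_two, mul_inv, mul_inv, mul_inv]
          ring
  have h9 : 0 ≤ (c ^ 2)⁻¹ * (x ^ 2)⁻¹ := by positivity
  linarith

theorem Hy.Fx_deriv (h : Hy W) {p : ℝ × ℝ} (hp : 0 < p.1) {x : ℝ} (hx : 0 < x) :
    HasFDerivAt (fun q => Fx W q x) (Fd W p x) p := by
  have h1 : 0 < p.1 * x := mul_pos hp hx
  have h2 : HasFDerivAt (fun q : ℝ × ℝ => ((q.1 * x, q.2) : ℝ × ℝ)) (Mx x) p := by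
    have h3 : (fun q : ℝ × ℝ => ((q.1 * x, q.2) : ℝ × ℝ)) = fun q => Mx x q := by
      funext q
      obtain ⟨a, b⟩ := q
      rw [Mx_apply, mul_comm]
    rw [h3]
    exact (Mx x).hasFDerivAt
  have h3 : HasFDerivAt (fun q : ℝ × ℝ => W (q.1 * x, q.2))
      ((fderiv ℝ W (p.1 * x, p.2)).comp (Mx x)) p :=
    HasFDerivAt.comp p (h.hasF (p := (p.1 * x, p.2)) h1) h2
  exact h3.const_smul (x⁻¹)

theorem Hy.cont_x (h : Hy W) {p : ℝ × ℝ} (hp : 0 < p.1) :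
    ContinuousOn (fun x : ℝ => W (p.1 * x, p.2)) (Ioi 0) := by
  refine h.c1.continuousOn.comp (t := {p : ℝ × ℝ | 0 < p.1}) ?_ fun x hx => mul_pos hp hx
  exact ((continuous_const.mul continuous_id).prodMk continuous_const).continuousOn

theorem Hy.contF_x (h : Hy W) {p : ℝ × ℝ} (hp : 0 < p.1) :
    ContinuousOn (fun x : ℝ => fderiv ℝ W (p.1 * x, p.2)) (Ioi 0) := by
  refine h.contF.comp (t := {p : ℝ × ℝ | 0 < p.1}) ?_ fun x hx => mul_pos hp hx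
  exact ((continuous_const.mul continuous_id).prodMk continuous_const).continuousOn

theorem Ioi_sub : Ioi (1 : ℝ) ⊆ Ioi 0 := Ioi_subset_Ioi zero_le_one

theorem Hy.Fx_meas (h : Hy W) {p : ℝ × ℝ} (hp : 0 < p.1) :
    AEStronglyMeasurable (Fx W p) (volume.restrict (Ioi 1)) := by
  refine ContinuousOn.aestronglyMeasurable ?_ measurableSet_Ioi
  refine ContinuousOn.mono ?_ Ioi_sub
  exact (continuousOn_inv₀.mono fun x hx => (ne_of_gt hx)).mul (h.cont_x hp)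

theorem Hy.Fd_meas (h : Hy W) {p : ℝ × ℝ} (hp : 0 < p.1) :
    AEStronglyMeasurable (Fd W p) (volume.restrict (Ioi 1)) := by
  refine ContinuousOn.aestronglyMeasurable ?_ measurableSet_Ioi
  refine ContinuousOn.mono ?_ Ioi_sub
  exact (continuousOn_inv₀.mono fun x hx => (ne_of_gt hx)).smul
    ((h.contF_x hp).clm_comp Mx_cont.continuousOn)

theorem Hy.Fx_int (h : Hy W) {p : ℝ × ℝ} (hp : 0 < p.1) : IntegrableOn (Fx W p) (Ioi 1) := by
  refine Integrable.mono' ((int_pow (k := 2) le_rfl).const_mul (p.1⁻¹)) (h.Fx_meas hp) ?_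
  refine (ae_restrict_iff' measurableSet_Ioi).2 (Eventually.of_forall fun x hx => ?_)
  exact h.Fx_le hp (le_of_lt hx)

theorem Hy.Fd_int (h : Hy W) {p : ℝ × ℝ} (hp : 0 < p.1) : IntegrableOn (Fd W p) (Ioi 1) := by
  refine Integrable.mono' ((int_pow (k := 2) le_rfl).const_mul (2 * (p.1 ^ 2)⁻¹))
    (h.Fd_meas hp) ?_
  refine (ae_restrict_iff' measurableSet_Ioi).2 (Eventually.of_forall fun x hx => ?_)
  exact h.Fd_le hp le_rfl (le_of_lt hx)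

/-- the function `H` -/
noncomputable def HH (W : ℝ × ℝ → ℝ) (p : ℝ × ℝ) : ℝ := ∫ x in Ioi (1 : ℝ), Fx W p x

/-- the derivative of `H` -/
noncomputable def HD (W : ℝ × ℝ → ℝ) (p : ℝ × ℝ) : ℝ × ℝ →L[ℝ] ℝ :=
  ∫ x in Ioi (1 : ℝ), Fd W p x

theorem Hy.HH_deriv (h : Hy W) {p : ℝ × ℝ} (hp : 0 < p.1) : HasFDerivAt (HH W) (HD W p) p := by
  have hs : {q : ℝ × ℝ | p.1 / 2 < q.1} ∈ 𝓝 p := by
    refine (isOpen_lt continuous_const continuous_fst).mem_nhds ?_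
    change p.1 / 2 < p.1
    linarith
  have hU : {q : ℝ × ℝ | 0 < q.1} ∈ 𝓝 p := isOpen_U.mem_nhds hp
  refine hasFDerivAt_integral_of_dominated_of_fderiv_le
    (bound := fun x => 2 * ((p.1 / 2) ^ 2)⁻¹ * (x ^ 2)⁻¹) hs ?_ (h.Fx_int hp) (h.Fd_meas hp) ?_
    ((int_pow (k := 2) le_rfl).const_mul _) ?_
  · filter_upwards [hU] with q hq
    exact h.Fx_meas hq
  · refine (ae_restrict_iff' measurableSet_Ioi).2 (Eventually.of_forall fun x hx q hq => ?_)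
    exact h.Fd_le (by linarith) (le_of_lt hq) (le_of_lt hx)
  · refine (ae_restrict_iff' measurableSet_Ioi).2 (Eventually.of_forall fun x hx q hq => ?_)
    have hq' : p.1 / 2 < q.1 := hq
    exact h.Fx_deriv (by linarith) (lt_trans one_pos hx)

theorem Hy.HD_cont (h : Hy W) {c : ℝ} (hc : 0 < c) :
    ContinuousOn (HD W) {q : ℝ × ℝ | c < q.1} := by
  refine continuousOn_of_dominated (bound := fun x => 2 * (c ^ 2)⁻¹ * (x ^ 2)⁻¹) ?_ ?_
    ((int_pow (k := 2) le_rfl).const_mul _) ?_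
  · intro q hq
    exact h.Fd_meas (lt_trans hc hq)
  · intro q hq
    refine (ae_restrict_iff' measurableSet_Ioi).2 (Eventually.of_forall fun x hx => ?_)
    exact h.Fd_le hc (le_of_lt hq) (le_of_lt hx)
  · refine (ae_restrict_iff' measurableSet_Ioi).2 (Eventually.of_forall fun x hx => ?_)
    have hx0 : 0 < x := lt_trans one_pos hx
    have h1 : ContinuousOn (fun q : ℝ × ℝ => fderiv ℝ W (q.1 * x, q.2)) {q | c < q.1} := by
      refine h.contF.comp (t := {p : ℝ × ℝ | 0 < p.1}) ?_ fun q hq => ?_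
      · exact ((continuous_fst.mul continuous_const).prodMk continuous_snd).continuousOn
      · exact mul_pos (lt_trans hc hq) hx0
    have h2 : ContinuousOn (fun q : ℝ × ℝ => (fderiv ℝ W (q.1 * x, q.2)).comp (Mx x))
        {q | c < q.1} := h1.clm_comp (continuousOn_const (c := Mx x))
    exact h2.const_smul x⁻¹

theorem Hy.HH_C1 (h : Hy W) : ContDiffOn ℝ 1 (HH W) {p | 0 < p.1} := by
  intro p hp
  have hp' : 0 < p.1 := hp
  refine ContDiffAt.contDiffWithinAt ?_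
  have key : ∃ f' : ℝ × ℝ → ℝ × ℝ →L[ℝ] ℝ, ∃ u ∈ 𝓝 p, ContinuousOn f' u ∧
      ∀ q ∈ u, HasFDerivAt (HH W) (f' q) q := by
    refine ⟨HD W, {q | p.1 / 2 < q.1}, ?_, h.HD_cont (by linarith), ?_⟩
    · refine (isOpen_lt continuous_const continuous_fst).mem_nhds ?_
      change p.1 / 2 < p.1
      linarith
    · intro q hq
      have hq' : p.1 / 2 < q.1 := hq
      exact h.HH_deriv (by linarith)
  exact (contDiffAt_one_iff (𝕜 := ℝ)).2 key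

/-! ### the partial derivatives and the inequalities -/

theorem Hy.HD_fst (h : Hy W) {p : ℝ × ℝ} (hp : 0 < p.1) :
    HD W p (1, 0) = ∫ x in Ioi (1 : ℝ), fderiv ℝ W (p.1 * x, p.2) (1, 0) := by
  unfold HD
  rw [ContinuousLinearMap.integral_apply (h.Fd_int hp)]
  exact setIntegral_congr_fun measurableSet_Ioi fun x hx => Fd_fst W p (lt_trans one_pos hx)

theorem Hy.HD_snd (h : Hy W) {p : ℝ × ℝ} (hp : 0 < p.1) :
    HD W p (0, 1) = ∫ x in Ioi (1 : ℝ), x⁻¹ * fderiv ℝ W (p.1 * x, p.2) (0, 1) := by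
  unfold HD
  rw [ContinuousLinearMap.integral_apply (h.Fd_int hp)]
  exact setIntegral_congr_fun measurableSet_Ioi fun x hx => Fd_snd W p x

theorem Hy.int_fst (h : Hy W) {p : ℝ × ℝ} (hp : 0 < p.1) :
    IntegrableOn (fun x => fderiv ℝ W (p.1 * x, p.2) (1, 0)) (Ioi 1) := by
  have h1 : IntegrableOn (fun x => Fd W p x (1, 0)) (Ioi 1) :=
    (h.Fd_int hp).apply_continuousLinearMap (1, 0)
  exact h1.congr_fun (fun x hx => Fd_fst W p (lt_trans one_pos hx)) measurableSet_Ioi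

theorem Hy.int_snd (h : Hy W) {p : ℝ × ℝ} (hp : 0 < p.1) :
    IntegrableOn (fun x => x⁻¹ * fderiv ℝ W (p.1 * x, p.2) (0, 1)) (Ioi 1) := by
  have h1 : IntegrableOn (fun x => Fd W p x (0, 1)) (Ioi 1) :=
    (h.Fd_int hp).apply_continuousLinearMap (0, 1)
  exact h1.congr_fun (fun x hx => Fd_snd W p x) measurableSet_Ioi

/-- the derivative in `x` of `W (s x, τ)` -/
theorem Hy.hasD_x (h : Hy W) {s τ x : ℝ} (hs : 0 < s) (hx : 0 < x) :
    HasDerivAt (fun x : ℝ => W (s * x, τ)) (s * fderiv ℝ W (s * x, τ) (1, 0)) x := by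
  have h1 : HasDerivAt (fun x : ℝ => ((s * x, τ) : ℝ × ℝ)) (s, 0) x := by
    have h2 := ((hasDerivAt_id x).const_mul s).prodMk (hasDerivAt_const x τ)
    simpa using h2
  have h2 : HasDerivAt (fun x : ℝ => W (s * x, τ)) (fderiv ℝ W (s * x, τ) (s, 0)) x :=
    HasFDerivAt.comp_hasDerivAt x (h.hasF (p := (s * x, τ)) (mul_pos hs hx)) h1
  have h3 : ((s, 0) : ℝ × ℝ) = s • ((1, 0) : ℝ × ℝ) := by simp
  rw [h3, map_smul, smul_eq_mul] at h2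
  exact h2

theorem Hy.tend (h : Hy W) {s τ : ℝ} (hs : 0 < s) :
    Tendsto (fun x : ℝ => W (s * x, τ)) atTop (𝓝 0) := by
  have h1 : Tendsto (fun x : ℝ => (s * x)⁻¹) atTop (𝓝 0) :=
    tendsto_inv_atTop_zero.comp (tendsto_id.const_mul_atTop hs)
  refine tendsto_of_tendsto_of_tendsto_of_le_of_le' tendsto_const_nhds h1 ?_ ?_
  · filter_upwards [eventually_gt_atTop 0] with x hx
    exact (h.pos _ _ (mul_pos hs hx)).le
  · filter_upwards [eventually_gt_atTop 0] with x hx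
    exact h.le _ _ (mul_pos hs hx)

theorem Hy.ftc (h : Hy W) {s τ : ℝ} (hs : 0 < s) :
    s * ∫ x in Ioi (1 : ℝ), fderiv ℝ W (s * x, τ) (1, 0) = - W (s, τ) := by
  have h1 := integral_Ioi_of_hasDerivAt_of_tendsto' (a := (1 : ℝ))
    (f := fun x : ℝ => W (s * x, τ)) (f' := fun x => s * fderiv ℝ W (s * x, τ) (1, 0)) (m := 0)
    (fun x hx => h.hasD_x hs (lt_of_lt_of_le one_pos hx))
    ((h.int_fst (p := (s, τ)) hs).const_mul s) (h.tend hs)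
  rw [integral_const_mul, mul_one, zero_sub] at h1
  exact h1

/-- the integrals `∫ W(s x, τ) x^(-k)` -/
theorem Hy.int_k (h : Hy W) {s τ : ℝ} (hs : 0 < s) {k : ℕ} (hk : 1 ≤ k) :
    IntegrableOn (fun x => W (s * x, τ) * (x ^ k)⁻¹) (Ioi 1) := by
  refine Integrable.mono' ((int_pow (k := k + 1) (by omega)).const_mul (s⁻¹)) ?_ ?_
  · refine ContinuousOn.aestronglyMeasurable ?_ measurableSet_Ioi
    refine ContinuousOn.mono ?_ Ioi_sub
    refine (h.cont_x (p := (s, τ)) hs).mul ?_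
    exact (continuousOn_pow k).inv₀ fun x hx => pow_ne_zero k (ne_of_gt hx)
  · refine (ae_restrict_iff' measurableSet_Ioi).2 (Eventually.of_forall fun x hx => ?_)
    have hx0 : (0 : ℝ) < x := lt_trans one_pos hx
    have h1 := h.pos (s * x) τ (mul_pos hs hx0)
    have h2 := h.le (s * x) τ (mul_pos hs hx0)
    have h3 : 0 < (x ^ k)⁻¹ := inv_pos.2 (pow_pos hx0 k)
    rw [Real.norm_eq_abs, abs_of_pos (mul_pos h1 h3)]
    calc W (s * x, τ) * (x ^ k)⁻¹ ≤ (s * x)⁻¹ * (x ^ k)⁻¹ := mul_le_mul_of_nonneg_right h2 h3.le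
      _ = s⁻¹ * (x ^ (k + 1))⁻¹ := by
          rw [pow_succ, mul_inv, mul_inv]
          ring

theorem HH_eq (W : ℝ × ℝ → ℝ) (s τ : ℝ) :
    HH W (s, τ) = ∫ x in Ioi (1 : ℝ), W (s * x, τ) * (x ^ 1)⁻¹ := by
  unfold HH Fx
  refine setIntegral_congr_fun measurableSet_Ioi fun x _ => ?_
  change x⁻¹ * W (s * x, τ) = W (s * x, τ) * (x ^ 1)⁻¹
  rw [pow_one, mul_comm]

theorem Hy.W_le (h : Hy W) {s τ : ℝ} (hs : 0 < s) : W (s, τ) ≤ 3 / 2 * HH W (s, τ) := by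
  have h1 : W (s, τ) = ∫ x in Ioi (1 : ℝ), -(s * fderiv ℝ W (s * x, τ) (1, 0)) := by
    rw [integral_neg, integral_const_mul, h.ftc hs, neg_neg]
  rw [h1, HH_eq, ← integral_const_mul]
  refine setIntegral_mono_on ((h.int_fst (p := (s, τ)) hs).const_mul s).neg
    ((h.int_k hs le_rfl).const_mul _) measurableSet_Ioi fun x hx => ?_
  have hx0 : (0 : ℝ) < x := lt_trans one_pos hx
  have h2 := (abs_le.1 (h.ds' τ (mul_pos hs hx0))).1
  have h3 : -(s * fderiv ℝ W (s * x, τ) (1, 0)) * x ≤ 3 / 2 * W (s * x, τ) := by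
    have e : -(s * fderiv ℝ W (s * x, τ) (1, 0)) * x =
        -(s * x * fderiv ℝ W (s * x, τ) (1, 0)) := by ring
    rw [e]
    linarith
  have h4 : -(s * fderiv ℝ W (s * x, τ) (1, 0)) ≤ 3 / 2 * W (s * x, τ) * x⁻¹ := by
    rw [← div_eq_mul_inv, le_div_iff₀ hx0]
    exact h3
  rw [pow_one]
  linarith

theorem Hy.HH_le (h : Hy W) {s τ : ℝ} (hs : 0 < s) : s * HH W (s, τ) ≤ 1 := by
  have h1 : HH W (s, τ) ≤ ∫ x in Ioi (1 : ℝ), s⁻¹ * (x ^ 2)⁻¹ := by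
    unfold HH
    refine setIntegral_mono_on (h.Fx_int (p := (s, τ)) hs)
      ((int_pow (k := 2) le_rfl).const_mul _) measurableSet_Ioi fun x hx => ?_
    exact (le_abs_self _).trans (h.Fx_le (p := (s, τ)) hs (le_of_lt hx))
  rw [integral_const_mul, int_sq, mul_one] at h1
  calc s * HH W (s, τ) ≤ s * s⁻¹ := mul_le_mul_of_nonneg_left h1 hs.le
    _ = 1 := mul_inv_cancel₀ hs.ne'

/-- `∫ W(s x, τ) x^(-3) ≤ 2 W(s, τ)` -/
theorem Hy.K_le (h : Hy W) {s τ : ℝ} (hs : 0 < s) :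
    ∫ x in Ioi (1 : ℝ), W (s * x, τ) * (x ^ 3)⁻¹ ≤ 2 * W (s, τ) := by
  have hd : ∀ x ∈ Ici (1 : ℝ), HasDerivAt (fun x : ℝ => W (s * x, τ) * (x ^ 2)⁻¹)
      (s * fderiv ℝ W (s * x, τ) (1, 0) * (x ^ 2)⁻¹ - 2 * (W (s * x, τ) * (x ^ 3)⁻¹)) x := by
    intro x hx
    have hx0 : (0 : ℝ) < x := lt_of_lt_of_le one_pos hx
    have h1 := (h.hasD_x (τ := τ) hs hx0).mul ((hasDerivAt_pow 2 x).inv (pow_ne_zero 2 hx0.ne'))
    refine h1.congr_deriv ?_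
    simp only [Pi.inv_apply]
    field_simp
    ring
  have hbd : IntegrableOn (fun x => s * fderiv ℝ W (s * x, τ) (1, 0) * (x ^ 2)⁻¹) (Ioi 1) := by
    refine Integrable.mono' ((h.int_k (τ := τ) hs (k := 3) (by norm_num)).const_mul (3 / 2)) ?_ ?_
    · refine ContinuousOn.aestronglyMeasurable ?_ measurableSet_Ioi
      refine ContinuousOn.mono ?_ Ioi_sub
      refine (continuousOn_const.mul ((h.contF_x (p := (s, τ)) hs).clm_apply
        continuousOn_const)).mul ?_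
      exact (continuousOn_pow 2).inv₀ fun x hx => pow_ne_zero 2 (ne_of_gt hx)
    · refine (ae_restrict_iff' measurableSet_Ioi).2 (Eventually.of_forall fun x hx => ?_)
      have hx0 : (0 : ℝ) < x := lt_trans one_pos hx
      have h2 := h.ds' τ (mul_pos hs hx0)
      have e : s * fderiv ℝ W (s * x, τ) (1, 0) * (x ^ 2)⁻¹ =
          (s * x * fderiv ℝ W (s * x, τ) (1, 0)) * (x ^ 3)⁻¹ := by
        field_simp
      have h3 : 0 < (x ^ 3)⁻¹ := inv_pos.2 (pow_pos hx0 3)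
      rw [e, Real.norm_eq_abs, abs_mul, abs_of_pos h3]
      calc |s * x * fderiv ℝ W (s * x, τ) (1, 0)| * (x ^ 3)⁻¹
          ≤ 3 / 2 * W (s * x, τ) * (x ^ 3)⁻¹ := mul_le_mul_of_nonneg_right h2 h3.le
        _ = 3 / 2 * (W (s * x, τ) * (x ^ 3)⁻¹) := by ring
  have hk := h.int_k (τ := τ) hs (k := 3) (by norm_num)
  have ht : Tendsto (fun x : ℝ => W (s * x, τ) * (x ^ 2)⁻¹) atTop (𝓝 0) := by
    have h1 := (h.tend (τ := τ) hs).mul
      (tendsto_inv_atTop_zero.comp (tendsto_pow_atTop (α := ℝ) (n := 2) (by norm_num)))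
    rw [mul_zero] at h1
    exact h1
  have h1 := integral_Ioi_of_hasDerivAt_of_tendsto' hd (hbd.sub (hk.const_mul 2)) ht
  rw [integral_sub hbd (hk.const_mul 2), integral_const_mul] at h1
  have h2 : ∫ x in Ioi (1 : ℝ), s * fderiv ℝ W (s * x, τ) (1, 0) * (x ^ 2)⁻¹ ≤
      ∫ x in Ioi (1 : ℝ), 3 / 2 * (W (s * x, τ) * (x ^ 3)⁻¹) := by
    refine setIntegral_mono_on hbd (hk.const_mul _) measurableSet_Ioi fun x hx => ?_
    have hx0 : (0 : ℝ) < x := lt_trans one_pos hx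
    have h2 := (abs_le.1 (h.ds' τ (mul_pos hs hx0))).2
    have e : s * fderiv ℝ W (s * x, τ) (1, 0) * (x ^ 2)⁻¹ =
        (s * x * fderiv ℝ W (s * x, τ) (1, 0)) * (x ^ 3)⁻¹ := by
      field_simp
    have h3 : 0 < (x ^ 3)⁻¹ := inv_pos.2 (pow_pos hx0 3)
    rw [e]
    calc s * x * fderiv ℝ W (s * x, τ) (1, 0) * (x ^ 3)⁻¹
        ≤ 3 / 2 * W (s * x, τ) * (x ^ 3)⁻¹ := mul_le_mul_of_nonneg_right h2 h3.le
      _ = 3 / 2 * (W (s * x, τ) * (x ^ 3)⁻¹) := by ring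
  rw [integral_const_mul] at h2
  norm_num at h1
  linarith

/-- `B^2 ≤ A K` -/
theorem Hy.cs (h : Hy W) {s τ : ℝ} (hs : 0 < s) :
    (∫ x in Ioi (1 : ℝ), W (s * x, τ) * (x ^ 2)⁻¹) ^ 2 ≤
      (∫ x in Ioi (1 : ℝ), W (s * x, τ) * (x ^ 1)⁻¹) *
        ∫ x in Ioi (1 : ℝ), W (s * x, τ) * (x ^ 3)⁻¹ := by
  have i1 := h.int_k (τ := τ) hs (k := 1) (by norm_num)
  have i2 := h.int_k (τ := τ) hs (k := 2) (by norm_num)
  have i3 := h.int_k (τ := τ) hs (k := 3) (by norm_num)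
  set A := ∫ x in Ioi (1 : ℝ), W (s * x, τ) * (x ^ 1)⁻¹ with hA
  set B := ∫ x in Ioi (1 : ℝ), W (s * x, τ) * (x ^ 2)⁻¹ with hB
  set K := ∫ x in Ioi (1 : ℝ), W (s * x, τ) * (x ^ 3)⁻¹ with hK
  have key : ∀ t : ℝ, 0 ≤ K - 2 * t * B + t ^ 2 * A := by
    intro t
    have h1 : K - 2 * t * B + t ^ 2 * A = ∫ x in Ioi (1 : ℝ),
        (W (s * x, τ) * (x ^ 3)⁻¹ - 2 * t * (W (s * x, τ) * (x ^ 2)⁻¹) +
          t ^ 2 * (W (s * x, τ) * (x ^ 1)⁻¹)) := by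
      have j1 : IntegrableOn (fun x => 2 * t * (W (s * x, τ) * (x ^ 2)⁻¹)) (Ioi 1) :=
        i2.const_mul (2 * t)
      have j2 : IntegrableOn (fun x => t ^ 2 * (W (s * x, τ) * (x ^ 1)⁻¹)) (Ioi 1) :=
        i1.const_mul (t ^ 2)
      have j3 : IntegrableOn (fun x => W (s * x, τ) * (x ^ 3)⁻¹ -
        2 * t * (W (s * x, τ) * (x ^ 2)⁻¹)) (Ioi 1) := i3.sub j1
      rw [integral_add j3 j2, integral_sub i3 j1, integral_const_mul, integral_const_mul]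
    rw [h1]
    refine setIntegral_nonneg measurableSet_Ioi fun x hx => ?_
    have hx0 : (0 : ℝ) < x := lt_trans one_pos hx
    have h2 := h.pos (s * x) τ (mul_pos hs hx0)
    have e : W (s * x, τ) * (x ^ 3)⁻¹ - 2 * t * (W (s * x, τ) * (x ^ 2)⁻¹) +
        t ^ 2 * (W (s * x, τ) * (x ^ 1)⁻¹) = W (s * x, τ) * (x ^ 3)⁻¹ * (1 - t * x) ^ 2 := by
      field_simp
      ring
    rw [e]
    exact mul_nonneg (mul_nonneg h2.le (inv_nonneg.2 (pow_nonneg hx0.le 3))) (sq_nonneg _)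
  have hA0 : 0 < A := by
    have h1 := h.W_le (τ := τ) hs
    rw [HH_eq] at h1
    have h2 := h.pos s τ hs
    linarith
  have h1 := key (B / A)
  have h2 : K - 2 * (B / A) * B + (B / A) ^ 2 * A = (A * K - B ^ 2) / A := by
    field_simp
    ring
  rw [h2] at h1
  have h3 : 0 ≤ A * K - B ^ 2 := by
    by_contra hc
    push Not at hc
    have := div_neg_of_neg_of_pos hc hA0
    linarith
  linarith

theorem Hy.HD_snd_le (h : Hy W) {s τ : ℝ} (hs : 0 < s) :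
    |s * HD W (s, τ) (0, 1)| ≤ 3 / 20 * ∫ x in Ioi (1 : ℝ), W (s * x, τ) * (x ^ 2)⁻¹ := by
  rw [h.HD_snd (p := (s, τ)) hs, ← integral_const_mul, ← integral_const_mul,
    ← Real.norm_eq_abs]
  refine (norm_integral_le_integral_norm _).trans ?_
  refine setIntegral_mono_on (((h.int_snd (p := (s, τ)) hs).const_mul s).norm)
    ((h.int_k hs (by norm_num)).const_mul _) measurableSet_Ioi fun x hx => ?_
  have hx0 : (0 : ℝ) < x := lt_trans one_pos hx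
  have h2 := h.dt' τ (mul_pos hs hx0)
  have h3 : 0 < (x ^ 2)⁻¹ := inv_pos.2 (pow_pos hx0 2)
  have e : s * (x⁻¹ * fderiv ℝ W (s * x, τ) (0, 1)) =
      (s * x * fderiv ℝ W (s * x, τ) (0, 1)) * (x ^ 2)⁻¹ := by
    field_simp
  change ‖s * (x⁻¹ * fderiv ℝ W (s * x, τ) (0, 1))‖ ≤ _
  rw [e, Real.norm_eq_abs, abs_mul, abs_of_pos h3]
  calc |s * x * fderiv ℝ W (s * x, τ) (0, 1)| * (x ^ 2)⁻¹
      ≤ 3 / 20 * W (s * x, τ) * (x ^ 2)⁻¹ := mul_le_mul_of_nonneg_right h2 h3.le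
    _ = 3 / 20 * (W (s * x, τ) * (x ^ 2)⁻¹) := by ring

theorem pf_HC1 : T_HC1 := by
  intro W h1 h2 h3 h4 h5
  have h : Hy W := ⟨h1, h2, h3, h4, h5⟩
  have hpos : ∀ s τ : ℝ, 0 < s → 0 < HH W (s, τ) := by
    intro s τ hs
    have e1 := h.W_le (τ := τ) hs
    have e2 := h.pos s τ hs
    linarith
  refine ⟨HH W, h.HH_C1, hpos, ?_, fun s τ hs => h.W_le hs, ?_, fun s τ hs => h.HH_le hs⟩
  · intro s τ hs
    have e1 : HasDerivAt (fun x => HH W (x, τ)) (HD W (s, τ) (1, 0)) s :=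
      HasFDerivAt.comp_hasDerivAt (l := HH W) (f := fun x => (x, τ)) s
        (h.HH_deriv (p := (s, τ)) hs) (hasD_fst s τ)
    rw [e1.deriv, h.HD_fst (p := (s, τ)) hs]
    change W (s, τ) = -(s * ∫ x in Ioi (1 : ℝ), fderiv ℝ W (s * x, τ) (1, 0))
    rw [h.ftc hs, neg_neg]
  · intro s τ hs
    have e1 : HasDerivAt (fun y => HH W (s, y)) (HD W (s, τ) (0, 1)) τ :=
      HasFDerivAt.comp_hasDerivAt (l := HH W) (f := fun y => (s, y)) τ
        (h.HH_deriv (p := (s, τ)) hs) (hasD_snd s τ)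
    rw [e1.deriv]
    have e2 := h.HD_snd_le (τ := τ) hs
    have e3 := h.cs (τ := τ) hs
    have e4 := h.K_le (τ := τ) hs
    have e5 := hpos s τ hs
    have e6 := h.pos s τ hs
    rw [← HH_eq] at e3
    set B := ∫ x in Ioi (1 : ℝ), W (s * x, τ) * (x ^ 2)⁻¹ with hB
    set K := ∫ x in Ioi (1 : ℝ), W (s * x, τ) * (x ^ 3)⁻¹ with hK
    have e7 : (s * HD W (s, τ) (0, 1)) ^ 2 ≤ (3 / 20 * B) ^ 2 := by
      rw [← sq_abs]
      exact pow_le_pow_left₀ (abs_nonneg _) e2 2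
    have e8 : HH W (s, τ) * K ≤ HH W (s, τ) * (2 * W (s, τ)) :=
      mul_le_mul_of_nonneg_left e4 e5.le
    have e9 : 0 ≤ HH W (s, τ) * W (s, τ) := mul_nonneg e5.le e6.le
    nlinarith

end Pool.Agent.H94.SN
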